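import Pool.Agent.H91.Bergman

set_option autoImplicit false

open Metric Filter Topology MeasureTheory Polynomial H91.Bergman in
theorem Pool.Agent.Results.MP_58ffb3_an.StrongNotWeak.result :
    ∃ ν : Measure ℂ, IsFiniteMeasure ν ∧ ν (closedBall 0 1)ᶜ = 0 ∧
    (∀ p : ℂ[X], p ≠ 0 → 0 < ∫ z, ‖p.eval z‖ ^ 2 ∂ν) ∧ (∃ e, ONB ν e) ∧
    ∀ e, ONB ν e →
      (∀ f : ℂ → ℝ, Continuous f →
        Tendsto (fun k : ℕ => ((k : ℝ) + 1)⁻¹ * ∫ z, f z * B e k z ∂ν) atTop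
          (𝓝 (Real.circleAverage f 0 1))) ∧
      ∀ V : ℂ → ℝ, Continuous V →
        ¬ TendstoLocallyUniformly (fun (k : ℕ) z => (2 * (k : ℝ))⁻¹ * Real.log (B e k z)) V atTop :=
  main
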